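import Pool.Agent.Helper48.ET.Defs

/-! Project WT (MP_12a1af_nt, Q2, negated side): sets with `r_A(n) ≤ (log n)^(o(1))` and
`|A ∩ [0,x)| ≥ √x exp(-(log x)^(1/2+o(1)))`. Definitions. -/

set_option autoImplicit false

namespace Pool.Agent.Helper3.WT

open Finset
open Pool.Agent.Helper48.ET

/-- number of ordered representations `a + b = n`, `a ∈ X`, `b ∈ Y` -/
noncomputable def rp (X Y : Set ℕ) (n : ℕ) : ℕ :=
  {q : ℕ × ℕ | q.1 ∈ X ∧ q.2 ∈ Y ∧ q.1 + q.2 = n}.ncard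

/-- bound for the number of solutions for two words of lengths `≤ M` -/
def GG (C M : ℕ) : ℕ := 2 ^ (Nat.log C M + 1) * N0 C ^ 2

/-- lower bound for the prime -/
def P0 (C M : ℕ) : ℕ := M * (2 * Del C + 1) + 2

/-- the integers of the code words of length `N` (all levels `≥ 0`) with lowest digit `ℓ` -/
def wordSet {p : ℕ} [Fact p.Prime] (C N : ℕ) (θ : Par p) (ℓ : ℕ) : Set ℕ :=
  {n | ∃ x z : ℕ → ZMod p, IsCode C 0 N θ x z ∧ x 0 = (ℓ : ZMod p) ∧ n = enc N x z}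

/-- the same with top digit `x (N - 1) = 1` -/
def topSet {p : ℕ} [Fact p.Prime] (C N : ℕ) (θ : Par p) (ℓ : ℕ) : Set ℕ :=
  {n | ∃ x z : ℕ → ZMod p, IsCode C 0 N θ x z ∧ x 0 = (ℓ : ZMod p) ∧ x (N - 1) = 1 ∧
    n = enc N x z}

/-- a component: digits to the base `Q = 2p`, complete words `T` of length `M` (label `0`),
partial words `S N` of length `N` (label `N`), `2 ≤ N ≤ M`, multiplicities at most `G` -/
structure Comp (p M G : ℕ) (T : Set ℕ) (S : ℕ → Set ℕ) : Prop where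
  two_le : 2 ≤ M
  lt_p : M < p
  G_pos : 1 ≤ G
  T_lt : ∀ a ∈ T, 2 * a < (2 * p) ^ (2 * M)
  S_lt : ∀ N, 2 ≤ N → N ≤ M → ∀ a ∈ S N, 2 * a < (2 * p) ^ (2 * N)
  S_ge : ∀ N, 2 ≤ N → N ≤ M → ∀ a ∈ S N, (2 * p) ^ (2 * (N - 1)) ≤ a
  T_lab : ∀ a ∈ T, a % (2 * p) = 0
  S_lab : ∀ N, 2 ≤ N → N ≤ M → ∀ a ∈ S N, a % (2 * p) = N
  TT : ∀ n, rp T T n ≤ G
  TS : ∀ N, 2 ≤ N → N ≤ M → ∀ n, rp T (S N) n ≤ G
  SS : ∀ N N', 2 ≤ N' → N' ≤ N → N ≤ M → ∀ n, rp (S N) (S N') n ≤ G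
  T_card : p ^ (M - 1) ≤ T.ncard
  S_card : ∀ N, 2 ≤ N → N ≤ M → p ^ (N - 2) ≤ (S N).ncard

/-- the data of all components -/
structure Sys where
  p : ℕ → ℕ
  M : ℕ → ℕ
  G : ℕ → ℕ
  T : ℕ → Set ℕ
  S : ℕ → ℕ → Set ℕ
  comp : ∀ k, Comp (p k) (M k) (G k) (T k) (S k)

namespace Sys

variable (σ : Sys)

/-- place value of component `k` -/
def W (k : ℕ) : ℕ := ∏ j ∈ range k, (2 * σ.p j) ^ (2 * σ.M j)

/-- sums of complete words of the components `< k` -/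
def Low : ℕ → Set ℕ
  | 0 => {0}
  | k + 1 => {n | ∃ l ∈ Low k, ∃ t ∈ σ.T k, n = l + σ.W k * t}

/-- the elements with top component `k` and length `N` there -/
def Part (k N : ℕ) : Set ℕ := {n | ∃ l ∈ σ.Low k, ∃ s ∈ σ.S k N, n = l + σ.W k * s}

/-- the set -/
def A : Set ℕ := {n | ∃ k N, 2 ≤ N ∧ N ≤ σ.M k ∧ n ∈ σ.Part k N}

end Sys

end Pool.Agent.Helper3.WT
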